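import Pool.Agent.T9h8.FG.Sharp
import Pool.Agent.T9h8.FG.Seq

/-!
# Filling exponents of stratified groups

For a stratified nilpotent group of dimension `n` and homogeneous dimension `Q`, the product of
the exponents of the filling volume functions in dimensions `1, …, n - 1` is at least `Q`. As the
Euclidean exponents `(k + 1) / k` have product `n`, and `n < Q` for a non-abelian group, one of
the filling functions is super-Euclidean, even by a power.

The group is given in coordinates (`NilLaw n` of the file `TH630/Fill/Defs`, a triangular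
polynomial group law on real `n`-space) together with a stratification `Strat G`: positive
weights such that the dilations `x_i ↦ t ^ (w i) x_i` are automorphisms, and such that the
elements `y` for which `t ↦ dil t y` is a one-parameter subgroup (the exponentials of the first
layer) generate the group. Exponential coordinates of the first kind of a basis adapted to the
grading have this form for every stratified group.

Idea of the proof. At scale `ρ` fill tuples of points at distance `O(ρ)` by chains, one dimension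
after the other. The resulting `n`-cochain is cohomologous, through bounded cochains, to the
signed volume of barycentric simplices. A partition of unity adapted to the dilated norm
`ρ * |dil (1/ρ) x|` has Jacobians `O(ρ ^ (-Q))`, so the cochain must reach the value `c ρ ^ Q`, as
one sees by comparing volumes of large balls.
-/

namespace Pool.Agent.Results.MP_b8ac35_gt.FillingExponents

open Pool.Agent.TH630 Pool.Agent.T9h8.FG

theorem result {n : ℕ} (hn : 1 ≤ n) (G : NilLaw n) (S : Strat G)
    (B : Matrix (Fin n) (Fin n) ℝ) (hB : B.PosDef) :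
    -- at every scale, iterated filling functions reach `c ρ ^ Q`
    ((∀ k, 1 ≤ k → k + 1 ≤ n → ∀ ℓ : ℝ, G.FV B k ℓ < ⊤) →
      ∃ a c : ℝ, 0 < a ∧ 0 < c ∧ ∀ ρ : ℝ, 1 ≤ ρ → ∀ M : ℕ → ℝ, a * ρ ≤ M 1 →
        (∀ k, 1 ≤ k → k + 1 ≤ n → G.FV B k ((k + 2) * M k) < ENNReal.ofReal (M (k + 1))) →
        c * ρ ^ S.Q ≤ M n) ∧
    -- the product of the filling exponents is at least `Q`
    (∀ α : ℕ → ℝ, (∀ k, 1 ≤ k → k + 1 ≤ n → 1 ≤ α k ∧ FVle G B k (α k)) →
      (S.Q : ℝ) ≤ ∏ k ∈ Finset.Ico 1 n, α k) ∧
    -- the non-abelian case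
    ((∃ x y, G.mul x y ≠ G.mul y x) → n < S.Q ∧
      (∃ k, 1 ≤ k ∧ k + 1 ≤ n ∧ ¬ FVle G B k (((k : ℝ) + 1) / k)) ∧
      ∀ θ : ℝ, 1 ≤ θ → n * θ ^ (n - 1) < S.Q →
        ∃ k, 1 ≤ k ∧ k + 1 ≤ n ∧ ¬ FVle G B k (θ * (((k : ℝ) + 1) / k))) := by
  have h3 : ∀ θ : ℝ, 1 ≤ θ → n * θ ^ (n - 1) < S.Q →
      ∃ k, 1 ≤ k ∧ k + 1 ≤ n ∧ ¬ FVle G B k (θ * (((k : ℝ) + 1) / k)) := by
    intro θ hθ hlt
    by_contra hcon
    push Not at hcon
    have h1 := Q_le_prod S B hB (fun k => θ * (((k : ℝ) + 1) / k)) (fun k h1 h2 => by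
      refine ⟨?_, hcon k h1 h2⟩
      have hk : (1 : ℝ) ≤ k := by exact_mod_cast h1
      have h3 : (1 : ℝ) ≤ ((k : ℝ) + 1) / k := by
        rw [le_div_iff₀ (by linarith)]
        linarith
      nlinarith)
    rw [Finset.prod_mul_distrib, prod_euclid n hn, Finset.prod_const, Nat.card_Ico] at h1
    linarith
  refine ⟨fun hfin => ?_, fun α hα => Q_le_prod S B hB α hα, fun hG => ?_⟩
  · obtain ⟨m, rfl⟩ : ∃ m, n = m + 1 := ⟨n - 1, by omega⟩
    obtain ⟨a, c, ha, hc, h⟩ := scale_ineq S B hB
      (fun k hk => hfin (k + 1) (by omega) (by omega))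
    refine ⟨a, c, ha, hc, fun ρ hρ M hM hF => h ρ hρ M hM fun k hk => ?_⟩
    have h1 := hF (k + 1) (by omega) (by omega)
    have h2 : (((k + 1 : ℕ) : ℝ) + 2) * M (k + 1) = ((k : ℝ) + 3) * M (k + 1) := by
      push_cast
      ring
    rwa [h2] at h1
  · have h1 : n < S.Q := S.lt_Q hG
    refine ⟨h1, ?_, h3⟩
    obtain ⟨k, hk1, hk2, hk3⟩ := h3 1 le_rfl (by
      rw [one_pow, mul_one]
      exact_mod_cast h1)
    rw [one_mul] at hk3
    exact ⟨k, hk1, hk2, hk3⟩

end Pool.Agent.Results.MP_b8ac35_gt.FillingExponents
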